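import Mathlib
import Pool.Agent.Y951.SW.Mult

/-!
Every digit, and every word of digits, occurs infinitely often in the decimal expansions of most of
the numbers `x + m √2`, `m < M`.
-/

set_option autoImplicit false

open Finset Filter

namespace Pool.Agent.Results.MP_175f55_nt.EveryDigitInMostMultiples

/-- the `j`-th decimal digit of `y` (`j ≥ 1`) -/
noncomputable def digit (y : ℝ) (j : ℕ) : ℤ := ⌊y * 10 ^ j⌋ % 10

/-- the word `w` of `k` digits stands in the decimal expansion of `y` right after the `i`-th digit -/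
def Stands (k : ℕ) (w : Fin k → Fin 10) (y : ℝ) (i : ℕ) : Prop :=
  ∀ s : Fin k, digit y (i + s + 1) = ((w s : ℕ) : ℤ)

/-- the number of the places `i < n` at which the word `w` stands -/
noncomputable def count (k : ℕ) (w : Fin k → Fin 10) (y : ℝ) (n : ℕ) : ℕ :=
  {i : ℕ | i < n ∧ Stands k w y i}.ncard

lemma count_eq (k : ℕ) (w : Fin k → Fin 10) (y : ℝ) (n : ℕ) :
    count k w y n = Pool.Agent.W226.MP.occ 10 k w y 0 n := by
  classical
  unfold count Stands digit Pool.Agent.W226.MP.occ Pool.Agent.W226.MP.OccursAt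
    Pool.Agent.W226.MP.digit
  rw [← Set.ncard_coe_finset]
  congr 1
  ext i
  simp only [Set.mem_ofPred_eq, Finset.coe_filter, Finset.mem_range, zero_add, Nat.cast_ofNat]

lemma count_le (k : ℕ) (w : Fin k → Fin 10) (y : ℝ) (h : {i : ℕ | Stands k w y i}.Finite) (n : ℕ) :
    count k w y n ≤ {i : ℕ | Stands k w y i}.ncard :=
  Set.ncard_le_ncard (fun _ hi => hi.2) h

/-- Let `k ≥ 1` and let `A` be arbitrarily large. There are `c, C > 0` such that for all real `x` and
all `M ≥ 2` and for all but at most `C M ^ (1 - c)` of the `m < M`: every word of `k` decimal digits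
(for `k = 1`: each of the ten digits) stands infinitely often in the decimal expansion of
`x + m √2`, and for infinitely many `n` every such word stands at least
`A log M log (n / (C log M))` times at the first `n` places. -/
theorem result (k : ℕ) (hk : 1 ≤ k) (A : ℝ) (hA : 0 < A) :
    ∃ c C : ℝ, 0 < c ∧ 0 < C ∧ ∀ (x : ℝ) (M : ℕ), 2 ≤ M →
      (({m : ℕ | m < M ∧ ¬ ((∀ w : Fin k → Fin 10,
          {i : ℕ | Stands k w (x + m * Real.sqrt 2) i}.Infinite) ∧
        ∃ᶠ n : ℕ in atTop, ∀ w : Fin k → Fin 10,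
          A * Real.log M * Real.log (n / (C * Real.log M)) ≤
            (count k w (x + m * Real.sqrt 2) n : ℝ))}.ncard : ℕ) : ℝ) ≤ C * (M : ℝ) ^ (1 - c) := by
  classical
  have halg : IsAlgebraic ℚ (Real.sqrt 2) := by
    refine ⟨Polynomial.X ^ 2 - Polynomial.C 2, Polynomial.X_pow_sub_C_ne_zero (by norm_num) _, ?_⟩
    rw [map_sub, map_pow, Polynomial.aeval_X, Polynomial.aeval_C, Real.sq_sqrt (by norm_num)]
    norm_num
  obtain ⟨c, C, hc, hC, h⟩ := Pool.Agent.Y951.SW.mult_alg (Real.sqrt 2) halg irrational_sqrt_two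
    10 k (by norm_num) hk A hA
  refine ⟨c, C, hc, hC, fun x M hM => ?_⟩
  have hMR : (2 : ℝ) ≤ M := by exact_mod_cast hM
  have hlM : 0 < Real.log M := Real.log_pos (by linarith)
  have hfin : ∀ P : ℕ → Prop, {m : ℕ | m < M ∧ P m}.Finite := fun P =>
    (Set.finite_lt_nat M).subset (fun _ hm => hm.1)
  have key : ∀ n : ℕ, (({m : ℕ | m < M ∧ ¬ ∀ w : Fin k → Fin 10,
        A * Real.log M * Real.log (n / (C * Real.log M)) ≤
            (count k w (x + m * Real.sqrt 2) n : ℝ)}.ncard : ℕ) : ℝ) ≤ C * (M : ℝ) ^ (1 - c) := by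
    intro n
    refine le_trans (Nat.cast_le.2 ?_) (h x M n hM)
    rw [← Set.ncard_coe_finset]
    refine Set.ncard_le_ncard ?_ (Finset.finite_toSet _)
    rintro m ⟨hm, h2⟩
    push Not at h2
    obtain ⟨w, hw⟩ := h2
    rw [count_eq] at hw
    rw [Finset.mem_coe, Finset.mem_filter, Finset.mem_range]
    exact ⟨hm, w, hw⟩
  -- the function of `n` tends to infinity
  have hlim : Tendsto (fun n : ℕ => A * Real.log M * Real.log (n / (C * Real.log M))) atTop atTop := by
    apply Tendsto.const_mul_atTop (by positivity)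
    apply Real.tendsto_log_atTop.comp
    exact tendsto_natCast_atTop_atTop.atTop_div_const (by positivity)
  have hev : ∀ m ∈ Finset.range M, ∀ᶠ n : ℕ in atTop,
      (¬ ((∀ w : Fin k → Fin 10, {i : ℕ | Stands k w (x + m * Real.sqrt 2) i}.Infinite) ∧
        ∃ᶠ n : ℕ in atTop, ∀ w : Fin k → Fin 10,
          A * Real.log M * Real.log (n / (C * Real.log M)) ≤
            (count k w (x + m * Real.sqrt 2) n : ℝ))) →
      ¬ ∀ w : Fin k → Fin 10, A * Real.log M * Real.log (n / (C * Real.log M)) ≤
            (count k w (x + m * Real.sqrt 2) n : ℝ) := by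
    intro m _
    by_cases hfr : ∃ᶠ n : ℕ in atTop, ∀ w : Fin k → Fin 10,
          A * Real.log M * Real.log (n / (C * Real.log M)) ≤
            (count k w (x + m * Real.sqrt 2) n : ℝ)
    · by_cases hw : ∀ w : Fin k → Fin 10, {i : ℕ | Stands k w (x + m * Real.sqrt 2) i}.Infinite
      · exact Eventually.of_forall (fun n hn => absurd ⟨hw, hfr⟩ hn)
      · push Not at hw
        obtain ⟨w, hw⟩ := hw
        filter_upwards [hlim.eventually_gt_atTop
          (({i : ℕ | Stands k w (x + m * Real.sqrt 2) i}.ncard : ℕ) : ℝ)] with n hn _ hall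
        have h1 := hall w
        have h2 : (count k w (x + m * Real.sqrt 2) n : ℝ) ≤
            (({i : ℕ | Stands k w (x + m * Real.sqrt 2) i}.ncard : ℕ) : ℝ) := by
          exact_mod_cast count_le k w _ hw n
        linarith
    · rw [not_frequently] at hfr
      filter_upwards [hfr] with n hn _
      exact hn
  obtain ⟨n, hn⟩ := ((Filter.eventually_all_finset (Finset.range M)).2 hev).exists
  refine le_trans (Nat.cast_le.2 (Set.ncard_le_ncard ?_ (hfin _))) (key n)
  rintro m ⟨hm, h1⟩
  exact ⟨hm, hn m (Finset.mem_range.2 hm) h1⟩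

end Pool.Agent.Results.MP_175f55_nt.EveryDigitInMostMultiples
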