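import Pool.Agent.Y933.KF.Fam
import Pool.Agent.Y933.KD.Roots

/-!
# Almost all multiples of `√2` are Poisson generic up to `A log M` digits

A real number is Poisson generic in base `b` if for every `λ > 0` the number of the occurrences of a
random word of `k` digits among its first `λ b ^ k` digits has asymptotically, as `k → ∞`, the Poisson
distribution with mean `λ`. This is stronger than normality. Almost all real numbers are Poisson
generic; no algebraic number is known to be. Here the multiples `m * ξ + y` of a fixed algebraic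
irrational number, for instance `√2`, are treated: for almost all `m ≤ M`, and for almost all primes
`m ≤ M`, the condition holds for all `k ≥ k₀` up to the length where the first `A log M` digits are
used, with an arbitrary constant `A`. The same is true for the numbers `ω * m ^ θ + y`, for instance
the square roots of the integers.
-/

set_option autoImplicit false

open Filter Topology MeasureTheory
open scoped NNReal

namespace Pool.Agent.Results.MP_175f55_nt.PoissonGenericMultiples

/-- the word of the `k` digits in base `b` of `x` which follow the first `n` digits after the point,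
read as an integer between `0` and `b ^ k - 1` -/
noncomputable def word (b k n : ℕ) (x : ℝ) : ℕ :=
  ⌊(b : ℝ) ^ k * Int.fract ((b : ℝ) ^ n * x)⌋₊

/-- the number of the occurrences of the word `w` of `k` digits at the places `s, …, s + N - 1` -/
noncomputable def occurrences (b k s N w : ℕ) (x : ℝ) : ℕ :=
  ((Finset.range N).filter (fun i => word b k (s + i) x = w)).card

open Classical in
/-- For all `k ≥ k₀` and all windows of `N ≤ Λ * b ^ k` places after the place `s` which are used up
by the first `T` digits, the number of the occurrences of a random word of `k` digits in the window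
has the Poisson distribution with mean `N / b ^ k`, up to `ε` in total variation. -/
def PoissonGeneric (b s k₀ : ℕ) (Λ T ε x : ℝ) : Prop :=
  ∀ k N : ℕ, k₀ ≤ k → (N : ℝ) ≤ Λ * (b : ℝ) ^ k → (s : ℝ) + N + k ≤ T → ∀ J : Set ℕ,
    |(((Finset.range (b ^ k)).filter (fun w => occurrences b k s N w x ∈ J)).card : ℝ) /
        (b : ℝ) ^ k -
      (ProbabilityTheory.poissonMeasure ((N : ℝ≥0) / (b : ℝ≥0) ^ k)).real J| ≤ ε

/-- the primes up to `M` -/
def primes (M : ℕ) : Finset ℕ := (Finset.Icc 1 M).filter Nat.Prime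

open Classical in
/-- Let `b ≥ 2`, `A`, `Λ` and `ε > 0` be given.

(1) For every real algebraic irrational number `ξ` there are `k₀` and `M₀` such that for all `M ≥ M₀`,
all `L`, `s` and all real `y`: all but at most `ε * M` of the integers `m` in `(L, L + M]` and all but
at most a proportion `ε` of the primes `m ≤ M` are such that `m * ξ + y` is Poisson generic, up to
`ε`, for the words of at least `k₀` digits, with the first `A log M` digits and all means up to `Λ`.

(2) Let `θ > 0` not be an integer, and let `κ > 0` and `W` be given. There are `k₀` and `M₀` such that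
for all `M ≥ M₀`, all `L` with `L ^ (1 / 2 + κ) ≤ M` and `L ^ (1 - θ + κ) ≤ M`, all `s`, all real `y`
and all real `ω` with `1 ≤ |ω| ≤ M ^ W`, all but at most `ε * M` of the integers `m` in `(L, L + M]`
are such that `ω * m ^ θ + y` has the same property. -/
theorem result (b : ℕ) (hb : 2 ≤ b) (A Λ ε : ℝ) (hε : 0 < ε) :
    (∀ ξ : ℝ, IsAlgebraic ℚ ξ → Irrational ξ → ∃ k₀ M₀ : ℕ, ∀ M : ℕ, M₀ ≤ M → ∀ (L s : ℕ) (y : ℝ),
      (((Finset.Ioc L (L + M)).filter (fun m : ℕ =>
        ¬ PoissonGeneric b s k₀ Λ (A * Real.log M) ε (m * ξ + y))).card : ℝ) ≤ ε * M ∧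
      (((primes M).filter (fun p : ℕ =>
        ¬ PoissonGeneric b s k₀ Λ (A * Real.log M) ε (p * ξ + y))).card : ℝ) ≤
          ε * (primes M).card) ∧
    (∀ θ κ W : ℝ, 0 < θ → (∀ r : ℕ, θ ≠ r) → 0 < κ → ∃ k₀ M₀ : ℕ, ∀ M : ℕ, M₀ ≤ M →
      ∀ (L s : ℕ) (ω y : ℝ), (L : ℝ) ^ (1 / 2 + κ) ≤ M → (L : ℝ) ^ (1 - θ + κ) ≤ M →
      1 ≤ |ω| → |ω| ≤ (M : ℝ) ^ W →
      (((Finset.Ioc L (L + M)).filter (fun m : ℕ =>
        ¬ PoissonGeneric b s k₀ Λ (A * Real.log M) ε (ω * (m : ℝ) ^ θ + y))).card : ℝ) ≤
          ε * M) := by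
  refine ⟨fun ξ halg hirr => ?_, fun θ κ W hθ hθ' hκ => ?_⟩
  · obtain ⟨k1, M1, h1⟩ := Pool.Agent.Y933.KF.poisson_gen (ι := ℕ) hb (A := A) (Λ := Λ) hε
      (Pool.Agent.Y933.KD.SM_prob (fun _ : Fin 1 => ξ))
      (fun t => Pool.Agent.Y933.KD.good_mult (fun _ : Fin 1 => ξ) 0 halg hirr b t A)
    obtain ⟨k2, M2, h2⟩ := Pool.Agent.Y933.KF.poisson_gen (ι := ℕ) hb (A := A) (Λ := Λ) hε
      (Pool.Agent.Y933.KD.SPr_prob ξ)
      (fun t => Pool.Agent.Y933.KD.good_prime ξ halg hirr b t A)
    refine ⟨max k1 k2, max (max M1 M2) 2, fun M hM L s y => ⟨?_, ?_⟩⟩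
    · have h3 := h1 M ((le_max_left _ _).trans (le_of_max_le_left hM)) s (Finset.Ioc L (L + M))
        (fun m => m * ξ + y) ⟨_, Pool.Agent.Y933.KD.unif_shift L M ξ y⟩
      rw [Nat.card_Ioc, Nat.add_sub_cancel_left] at h3
      refine le_trans (Nat.cast_le.2 (Finset.card_le_card fun m hm => ?_)) h3
      rw [Finset.mem_filter] at hm ⊢
      exact ⟨hm.1, fun h4 => hm.2 fun k N hk => h4 k N ((le_max_left _ _).trans hk)⟩
    · have h3 := h2 M ((le_max_right _ _).trans (le_of_max_le_left hM)) s (primes M)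
        (fun m => m * ξ + y) ⟨le_of_max_le_right hM, y, rfl⟩
      refine le_trans (Nat.cast_le.2 (Finset.card_le_card fun m hm => ?_)) h3
      rw [Finset.mem_filter] at hm ⊢
      exact ⟨hm.1, fun h4 => hm.2 fun k N hk => h4 k N ((le_max_right _ _).trans hk)⟩
  · obtain ⟨k1, M1, h1⟩ := Pool.Agent.Y933.KF.poisson_gen (ι := ℕ) hb (A := A) (Λ := Λ) hε
      (Pool.Agent.Y933.KD.SR_prob θ κ W)
      (fun t => Pool.Agent.Y933.KD.good_root hθ hθ' hκ W b t A)
    refine ⟨k1, M1, fun M hM L s ω y hL1 hL2 hω1 hω2 => ?_⟩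
    have h3 := h1 M hM s (Finset.Ioc L (L + M)) (fun m : ℕ => ω * (m : ℝ) ^ θ + y)
      ⟨L, ω, y, hL1, hL2, hω1, hω2, rfl⟩
    rw [Nat.card_Ioc, Nat.add_sub_cancel_left] at h3
    exact h3

end Pool.Agent.Results.MP_175f55_nt.PoissonGenericMultiples
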