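import Pool.Agent.Y603.BR.Conv
import Pool.Agent.Y603.BR.Neg

/-!
The digits of the numbers `x / m ^ σ`, for every real number `x ≠ 0` (for instance `√2 / m`), cannot
be distinguished from random digits by circuits of constant depth and subexponential size.
-/

set_option autoImplicit false

namespace Pool.Agent.Results.MP_175f55_nt.Quotients

open Finset MeasureTheory Real Filter
open Pool.Agent.Y603.BR (digit Circuit circ_fool unif_val hat_unif pow_sum')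
open Pool.Agent.Y933.KD (unif unif_prob)
open Pool.Agent.Y933.KD.VdC (ev_le)

theorem result {b : ℕ} (hb : 2 ≤ b) (d : ℕ) {σ δ : ℝ} (hσ : 0 < σ) (hδ : 0 < δ) (A : ℝ) :
    ∃ c : ℝ, 0 < c ∧ ∃ M₀ : ℕ, ∀ M : ℕ, M₀ ≤ M → ∀ N : ℕ, (N : ℝ) + M ≤ (M : ℝ) ^ (2 - δ) →
      ∀ x y : ℝ, ∀ s : ℕ, ((N : ℝ) + M) ^ (σ + 1) ≤ |x| * (b : ℝ) ^ s * (M : ℝ) ^ (1 - δ) →
      |x| * (b : ℝ) ^ s ≤ (M : ℝ) ^ A → ∀ n : ℕ, (b : ℝ) ^ n ≤ (M : ℝ) ^ A →
      ∀ C : Circuit (Set.Icc 1 n), (∀ v, C.depth v ≤ d) →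
      (Nat.card C.Node : ℝ) ≤ exp (log M ^ c) → ∀ v : C.Node,
      |(((Ioc N (N + M)).filter
          fun m : ℕ => C.val v (fun j => digit b (x / (m : ℝ) ^ σ + y) (s + j)) = true).card : ℝ) / M -
        volume.real {t | t ∈ Set.Ico (0 : ℝ) 1 ∧ C.val v (digit b t) = true}| ≤
          exp (-(log M ^ c)) := by
  set A' := max A 0 with hA'
  have hA'0 : 0 ≤ A' := le_max_right _ _
  have hc0 : ∀ k : ℕ, -σ ≠ k := fun k h => by
    have : (0 : ℝ) ≤ k := Nat.cast_nonneg k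
    linarith
  set μ : ℝ := min δ 1 / 8 with hμ
  have hmin : 0 < min δ 1 := lt_min hδ one_pos
  have hμ0 : 0 < μ := by positivity
  have hμδ : 8 * μ ≤ δ := by
    have := min_le_left δ 1
    rw [hμ]; linarith
  have hμ1 : μ ≤ 1 / 8 := by
    have := min_le_right δ 1
    rw [hμ]; linarith
  obtain ⟨ρ, hρ, M2, hM2⟩ := pow_sum' hc0 (by linarith) (A' + (A' + 2)) μ hμ0 (by linarith)
  obtain ⟨c, hc, M3, hM3⟩ := circ_fool hb d hA'0 hρ
  obtain ⟨M4, hM4⟩ := eventually_atTop.1 ((ev_le 2 (4 * μ) (by positivity)).and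
    (ev_le (2 ^ (σ + 1)) μ hμ0))
  refine ⟨c, hc, max (max M4 M2) (max M3 1), ?_⟩
  intro M hM N hN x y s hs1 hs2 n hn C hCd hCs v
  have hMM4 : M4 ≤ M := le_of_max_le_left (le_of_max_le_left hM)
  have hMM2 : M2 ≤ M := le_of_max_le_right (le_of_max_le_left hM)
  have hMM3 : M3 ≤ M := le_of_max_le_left (le_of_max_le_right hM)
  have hM1' : 1 ≤ M := le_of_max_le_right (le_of_max_le_right hM)
  have hMR : (1 : ℝ) ≤ M := by exact_mod_cast hM1'
  have hMp : (0 : ℝ) < M := by linarith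
  have hN0 : (0 : ℝ) ≤ N := Nat.cast_nonneg N
  obtain ⟨h41, h42⟩ := hM4 M hMM4
  have hAA : (M : ℝ) ^ A ≤ (M : ℝ) ^ A' :=
    Real.rpow_le_rpow_of_exponent_le hMR (le_max_left _ _)
  have hne : (Ioc N (N + M)).Nonempty := by
    rw [Finset.nonempty_Ioc]
    omega
  set ω : ℝ := x * (b : ℝ) ^ s with hω
  have hbR : (0 : ℝ) < b := by
    have : 0 < b := by omega
    exact_mod_cast this
  have hωabs : |ω| = |x| * (b : ℝ) ^ s := by
    rw [hω, abs_mul, abs_of_pos (by positivity : (0 : ℝ) < (b : ℝ) ^ s)]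
  have hYle : (N : ℝ) + M + 1 ≤ (M : ℝ) ^ (2 - 4 * μ) := by
    calc (N : ℝ) + M + 1 ≤ 2 * ((N : ℝ) + M) := by linarith
      _ ≤ (M : ℝ) ^ (4 * μ) * (M : ℝ) ^ (2 - δ) := by gcongr
      _ = (M : ℝ) ^ (4 * μ + (2 - δ)) := (Real.rpow_add hMp _ _).symm
      _ ≤ (M : ℝ) ^ (2 - 4 * μ) := Real.rpow_le_rpow_of_exponent_le hMR (by linarith)
  have hωY : (M : ℝ) ^ (-1 + μ) ≤ |ω| * ((N : ℝ) + M + 1) ^ (-σ - 1) := by
    have hY0 : (0 : ℝ) < (N : ℝ) + M + 1 := by linarith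
    have h1 : ((N : ℝ) + M + 1) ^ (σ + 1) ≤ (M : ℝ) ^ μ * ((N : ℝ) + M) ^ (σ + 1) := by
      calc ((N : ℝ) + M + 1) ^ (σ + 1) ≤ (2 * ((N : ℝ) + M)) ^ (σ + 1) :=
            Real.rpow_le_rpow hY0.le (by linarith) (by linarith)
        _ = 2 ^ (σ + 1) * ((N : ℝ) + M) ^ (σ + 1) := Real.mul_rpow (by norm_num) (by linarith)
        _ ≤ (M : ℝ) ^ μ * ((N : ℝ) + M) ^ (σ + 1) :=
            mul_le_mul_of_nonneg_right h42 (by positivity)
    have h2 : ((N : ℝ) + M + 1) ^ (σ + 1) ≤ |ω| * (M : ℝ) ^ (1 - μ) := by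
      calc ((N : ℝ) + M + 1) ^ (σ + 1) ≤ (M : ℝ) ^ μ * (|x| * (b : ℝ) ^ s * (M : ℝ) ^ (1 - δ)) :=
            h1.trans (mul_le_mul_of_nonneg_left hs1 (by positivity))
        _ = |ω| * ((M : ℝ) ^ μ * (M : ℝ) ^ (1 - δ)) := by rw [hωabs]; ring
        _ = |ω| * (M : ℝ) ^ (μ + (1 - δ)) := by rw [Real.rpow_add hMp]
        _ ≤ |ω| * (M : ℝ) ^ (1 - μ) := by
            refine mul_le_mul_of_nonneg_left ?_ (abs_nonneg _)
            exact Real.rpow_le_rpow_of_exponent_le hMR (by linarith)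
    have e1 : ((N : ℝ) + M + 1) ^ (-σ - 1) = (((N : ℝ) + M + 1) ^ (σ + 1))⁻¹ := by
      rw [← Real.rpow_neg hY0.le]; congr 1; ring
    have e2 : (M : ℝ) ^ (-1 + μ) = ((M : ℝ) ^ (1 - μ))⁻¹ := by
      rw [← Real.rpow_neg hMp.le]; congr 1; ring
    rw [e1, e2, ← div_eq_mul_inv, le_div_iff₀ (by positivity), inv_mul_le_iff₀ (by positivity)]
    linarith
  have hω0 : 0 < |ω| := by
    by_contra hcon
    have h0 : |ω| = 0 := le_antisymm (not_lt.1 hcon) (abs_nonneg _)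
    rw [h0, zero_mul] at hωY
    have : 0 < (M : ℝ) ^ (-1 + μ) := by positivity
    linarith
  have := unif_prob hne fun m : ℕ => ω * (m : ℝ) ^ (-σ) + y * (b : ℝ) ^ s
  have key := hM3 M hMM3
    (unif (Ioc N (N + M)) fun m : ℕ => ω * (m : ℝ) ^ (-σ) + y * (b : ℝ) ^ s) (by
    intro l hl hle
    have hl1 : (1 : ℝ) ≤ |(l : ℝ)| := by
      have : (1 : ℤ) ≤ |l| := Int.one_le_abs hl
      exact_mod_cast this
    have h1 : |ω| ≤ |(l : ℝ) * ω| := by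
      rw [abs_mul (l : ℝ) ω]
      exact le_mul_of_one_le_left (abs_nonneg _) hl1
    have h2 : |(l : ℝ) * ω| ≤ (M : ℝ) ^ (A' + (A' + 2)) := by
      rw [abs_mul (l : ℝ) ω, Real.rpow_add hMp, mul_comm]
      rw [← hωabs] at hs2
      exact mul_le_mul (hs2.trans hAA) hle (abs_nonneg _) (by positivity)
    have h3 : (M : ℝ) ^ (-1 + μ) ≤ |(l : ℝ) * ω| * ((N : ℝ) + M + 1) ^ (-σ - 1) :=
      hωY.trans (mul_le_mul_of_nonneg_right h1 (by positivity))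
    have h4 := hat_unif hM1' ω (y * (b : ℝ) ^ s) (-σ) l
      (hM2 M hMM2 N hYle _ (hω0.trans_le h1) h3 h2)
    refine h4.trans (le_of_eq ?_)
    congr 1
    ring) n (hn.trans hAA) C hCd hCs v
  rw [unif_val (by omega)] at key
  have hdig : ∀ m : ℕ, (fun j => digit b (x / (m : ℝ) ^ σ + y) (s + j)) =
      digit b (ω * (m : ℝ) ^ (-σ) + y * (b : ℝ) ^ s) := by
    intro m
    funext j
    unfold digit
    congr 3
    rw [hω, Real.rpow_neg (Nat.cast_nonneg m), pow_add]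
    ring
  simp only [hdig]
  exact key

end Pool.Agent.Results.MP_175f55_nt.Quotients
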