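import Pool.Agent.Y413.DG.Cor

set_option autoImplicit false

/-!
# Uniform superlinear complexity of digit sequences of algebraic irrational numbers
-/

namespace Pool.Agent.Results.MP_175f55_nt.UniformComplexity

open Finset Pool.Agent.Y413.DG

/-- For all but at most `k` of the places `t < N`, the value `u (q + t)` is `u t` plus a constant
`p` (which does not depend on `t`). -/
def Repeats (k q N : ℕ) (u : ℕ → ℝ) : Prop :=
  ∃ p : ℝ, ((range N).filter fun t => u (q + t) ≠ u t + p).card ≤ k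

/-- For every set `W` of at most `C n` real words of length `n` there is a block
`v i, …, v (i + n - 1)` with `i ≤ C n` that differs from each word of `W` in more than `k`
places. -/
def ManyBlocks (C k n : ℕ) (v : ℕ → ℝ) : Prop :=
  ∀ W : Finset (Fin n → ℝ), W.card ≤ C * n → ∃ i, i ≤ C * n ∧ ∀ w ∈ W,
    k < (univ.filter fun t : Fin n => v (i + t) ≠ w t).card

/-- All sequences obtained from `d` by a filter with `T` real coefficients at different places
`≤ C n` and by adding `S` sequences, each repeating itself at a distance `q ≤ n / (4 (S + 1))`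
with at most `k` exceptions, or each of the form `c ⌊θ t + ρ⌋`, have many blocks of length `n`;
uniformly for `n ≥ n₀ (T, S, C, k)`. -/
def Uniform (d : ℕ → ℤ) : Prop :=
  ∀ T S C k : ℕ, ∃ n₀ : ℕ, ∀ n, n₀ ≤ n → ∀ (a : Fin T → ℝ) (s : Fin T → ℕ), a ≠ 0 →
    Function.Injective s → (∀ l, s l ≤ C * n) →
    (∀ u : Fin S → ℕ → ℝ,
      (∀ l, ∃ q, 1 ≤ q ∧ 4 * (S + 1) * q ≤ n ∧ Repeats k q ((C + 1) * n) (u l)) →
      ManyBlocks C k n fun t => ∑ l, a l * d (s l + t) + ∑ l, u l t) ∧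
    (∀ c θ ρ : Fin S → ℝ,
      ManyBlocks C k n fun t => ∑ l, a l * d (s l + t) + ∑ l, c l * ⌊θ l * t + ρ l⌋)

lemma manyBlocks_of {C k n : ℕ} {v : ℕ → ℝ} (h : ∀ W : Finset (ℕ → ℝ), W.card ≤ C * n →
    ∃ i, i ≤ C * n ∧ ∀ w ∈ W, k < nz n (fun t => v (i + t) - w t)) : ManyBlocks C k n v := by
  classical
  intro W hW
  set E : (Fin n → ℝ) → ℕ → ℝ := fun w t => if ht : t < n then w ⟨t, ht⟩ else 0 with hE
  obtain ⟨i, hi, h1⟩ := h (W.image E) (Finset.card_image_le.trans hW)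
  refine ⟨i, hi, fun w hw => ?_⟩
  have h2 := h1 (E w) (Finset.mem_image_of_mem _ hw)
  rw [nz_fin] at h2
  refine h2.trans_le (Finset.card_le_card ?_)
  intro t ht
  rw [mem_filter] at ht ⊢
  refine ⟨ht.1, fun h => ht.2 ?_⟩
  have h3 : E w t = w t := by
    rw [hE]
    exact dif_pos t.2
  rw [h3, h, sub_self]

lemma uniform_of (b : ℕ) (hb : 2 ≤ b) (x : ℝ) (hx : IsAlgebraic ℚ x) (hirr : Irrational x)
    (d : ℕ → ℤ) (B : ℕ) (hB : ∀ t, |d t| ≤ B)
    (hd : HasSum (fun t => (d t : ℝ) / (b : ℝ) ^ (t + 1)) x) : Uniform d := by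
  classical
  intro T S C k
  have hind := indep_one hirr
  obtain ⟨n1, h1⟩ := filt0 b hb (fun _ : Fin 1 => x) (fun _ => hx) hind (fun _ => d) B
    (fun _ => hB) (fun _ => hd) T S C k
  obtain ⟨n2, h2⟩ := filt b hb (fun _ : Fin 1 => x) (fun _ => hx) hind (fun _ => d) B
    (fun _ => hB) (fun _ => hd) T S C k
  refine ⟨max n1 n2, fun n hn a s ha hs hsn => ?_⟩
  obtain ⟨f, hf0, hfT, hfd, hf⟩ := toPoly a (fun _ => (0 : Fin 1)) s
    (fun l l' h => hs (Prod.ext_iff.1 h).2) ha (C * n) hsn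
  have hf' := hf (fun _ t => (d t : ℝ))
  constructor
  · intro u hu
    apply manyBlocks_of
    intro W hW
    obtain ⟨i, hi, h⟩ := h1 n ((le_max_left _ _).trans hn) f hfT hfd hf0 u (by
      intro l
      obtain ⟨q, hq1, hq2, p, hp⟩ := hu l
      refine ⟨q, hq1, hq2, p, ?_⟩
      rw [nz_def]
      refine le_trans (Finset.card_le_card ?_) hp
      intro t ht
      rw [mem_filter] at ht ⊢
      refine ⟨ht.1, fun h => ht.2 ?_⟩
      rw [h]
      ring) W hW
    refine ⟨i, hi, fun w hw => ?_⟩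
    have h3 := h w hw
    rw [hf'] at h3
    simpa only [Pi.add_apply, Finset.sum_apply] using h3
  · intro c θ ρ
    apply manyBlocks_of
    intro W hW
    obtain ⟨i, hi, h⟩ := h2 n ((le_max_right _ _).trans hn) f hfT hfd hf0 c θ ρ W hW
    refine ⟨i, hi, fun w hw => ?_⟩
    have h3 := h w hw
    rw [hf'] at h3
    simpa only [Pi.add_apply, Finset.sum_apply, Pi.smul_apply, smul_eq_mul, bt] using h3

/-- Let `b ≥ 2` and let `x` be a real irrational algebraic number.  Every bounded integer sequence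
`d` with `x = ∑ d_t / b ^ (t + 1)`, and the sequence of the base `b` digits of `x`, are `Uniform`.
In particular the sequence of the decimal digits of `√2` is `Uniform`. -/
theorem result :
    (∀ b : ℕ, 2 ≤ b → ∀ x : ℝ, IsAlgebraic ℚ x → Irrational x →
      (∀ (d : ℕ → ℤ) (B : ℕ), (∀ t, |d t| ≤ B) →
        HasSum (fun t => (d t : ℝ) / (b : ℝ) ^ (t + 1)) x → Uniform d) ∧
      Uniform fun t => ⌊x * (b : ℝ) ^ (t + 1)⌋ % (b : ℤ)) ∧
    Uniform fun t => ((⌊Real.sqrt 2 * (10 : ℝ) ^ (t + 1)⌋₊ % 10 : ℕ) : ℤ) := by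
  have key : ∀ b : ℕ, 2 ≤ b → ∀ x : ℝ, IsAlgebraic ℚ x → Irrational x →
      Uniform fun t => ⌊x * (b : ℝ) ^ (t + 1)⌋ % (b : ℤ) := by
    intro b hb x hx hirr
    have hirr' : Irrational (Int.fract x) := by
      have h1 : Int.fract x = x - (⌊x⌋ : ℤ) := rfl
      rw [h1]
      exact hirr.sub_intCast _
    exact uniform_of b hb (Int.fract x) (alg_fract hx) hirr' (dg b x) b
      (fun t => dg_bound b hb x t) (exp_dg b hb x)
  refine ⟨fun b hb x hx hirr => ⟨fun d B hB hd => uniform_of b hb x hx hirr d B hB hd,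
    key b hb x hx hirr⟩, ?_⟩
  have h2 : IsAlgebraic ℚ (Real.sqrt 2) := by
    refine ⟨Polynomial.X ^ 2 - Polynomial.C 2, ?_, ?_⟩
    · intro h
      have h1 := congrArg (fun p : Polynomial ℚ => p.coeff 2) h
      simp at h1
    · simp
  have h3 := key 10 (by norm_num) (Real.sqrt 2) h2 irrational_sqrt_two
  have h4 : (fun t : ℕ => ((⌊Real.sqrt 2 * (10 : ℝ) ^ (t + 1)⌋₊ % 10 : ℕ) : ℤ)) =
      fun t => ⌊Real.sqrt 2 * ((10 : ℕ) : ℝ) ^ (t + 1)⌋ % ((10 : ℕ) : ℤ) := by
    funext t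
    push_cast
    congr 1
    exact Int.natCast_floor_eq_floor (by positivity)
  rw [h4]
  exact h3

end Pool.Agent.Results.MP_175f55_nt.UniformComplexity
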